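import Mathlib

/-!
# Definitions: multiplicities, the Lech-Mumford constant and its deep variants
-/

namespace Pool.Agent.Lib_helper7.LechMumford

open Filter Topology IsLocalRing
open scoped PowerSeries ENNReal

universe u

/-- The Krull dimension of a (Noetherian local) ring `S`, as a natural number. -/
noncomputable def dimN (S : Type u) [CommRing S] : ℕ := ((ringKrullDim S).unbotD 0).toNat

/-- The colength `ℓ(S/I)` of an ideal `I` of `S`, as an element of `[0,∞]`. -/
noncomputable def colen {S : Type u} [CommRing S] (I : Ideal S) : ℝ≥0∞ :=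
  ((Module.length S (S ⧸ I) : ℕ∞) : ℝ≥0∞)

/-- The Hilbert-Samuel multiplicity `e(I)`: the (upper) limit of `e! ℓ(S/I^k) / k^e` as
`k → ∞`, where `e = dim S`. For an ideal primary to the maximal ideal of a Noetherian local
ring the limit exists by Hilbert-Samuel theory, so the upper limit is the limit. -/
noncomputable def mult {S : Type u} [CommRing S] (I : Ideal S) : ℝ≥0∞ :=
  limsup (fun k : ℕ => ((dimN S).factorial : ℝ≥0∞) * colen (I ^ k) / (k : ℝ≥0∞) ^ dimN S) atTop

/-- The Lech-Mumford constant `LM(S)` of a local ring `S`. -/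
noncomputable def LM (S : Type u) [CommRing S] [IsLocalRing S] : ℝ≥0∞ :=
  ⨆ (I : Ideal S) (_ : I.radical = maximalIdeal S),
    mult I / ((dimN S).factorial * colen I)

/-- `L_N(R)`: the supremum of `e(I) / ((d+1)! ℓ(R[[T]]/I))`, `d = dim R`, over the ideals `I`
of `R[[T]]` primary to the maximal ideal `(m,T)` and contained in `(m,T)^N`. -/
noncomputable def deepLM (R : Type u) [CommRing R] [IsLocalRing R] (N : ℕ) : ℝ≥0∞ :=
  ⨆ (I : Ideal R⟦X⟧) (_ : I.radical = maximalIdeal R⟦X⟧) (_ : I ≤ maximalIdeal R⟦X⟧ ^ N),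
    mult I / ((dimN R + 1).factorial * colen I)

end Pool.Agent.Lib_helper7.LechMumford
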