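import Mathlib
import Pool.Agent.Lib_helper7.LechMumford.Defs

/-!
# The Lech-Mumford constant of `R[[T]]` is computed by arbitrarily deep ideals: proofs

Idea: for an ideal `I` primary to `n = (m,T)` let `I_p` be its extension along the flat local
homomorphism `T ↦ T^p`, which multiplies colength and multiplicity by `p`. The ideal
`Q = I_p ∩ n^N` lies in `n^N`, satisfies `e(Q) ≥ e(I_p) = p e(I)` and
`ℓ(S/Q) ≤ p ℓ(S/I) + ℓ(S/n^N)`. Let `p → ∞`.
-/

namespace Pool.Agent.Lib_helper7.LechMumford

open Filter Topology IsLocalRing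
open scoped PowerSeries ENNReal

universe u v w

theorem simple_restrict {A : Type u} {B : Type v} {M : Type w} [CommRing A] [CommRing B]
    [IsLocalRing B] [Algebra A B]
    (h : ∀ b : B, ∃ a : A, b - algebraMap A B a ∈ maximalIdeal B)
    [AddCommGroup M] [Module B M] [Module A M] [IsScalarTower A B M] [IsSimpleModule B M] :
    IsSimpleModule A M := by
  have hnt : Nontrivial M := IsSimpleModule.nontrivial B M
  have kill : ∀ c ∈ maximalIdeal B, ∀ x : M, c • x = 0 := by
    intro c hc x
    by_contra hne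
    have hsurj := IsSimpleModule.toSpanSingleton_surjective B hne
    obtain ⟨d, hd⟩ := hsurj x
    rw [LinearMap.toSpanSingleton_apply, smul_smul] at hd
    have h1 : (1 - d * c) • x = 0 := by rw [sub_smul, one_smul, hd, sub_self]
    have h2 : IsUnit (1 - d * c) := by
      have hm : d * c ∈ maximalIdeal B := Ideal.mul_mem_left _ _ hc
      rcases IsLocalRing.isUnit_or_isUnit_one_sub_self (d * c) with h' | h'
      · exact absurd h' ((IsLocalRing.mem_maximalIdeal _).1 hm)
      · exact h'
    obtain ⟨u, hu⟩ := h2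
    have hx : x = 0 := by
      have : (↑u⁻¹ : B) • ((u : B) • x) = 0 := by rw [hu, h1, smul_zero]
      rwa [smul_smul, Units.inv_mul, one_smul] at this
    exact hne (by rw [hx, smul_zero])
  refine (isSimpleModule_iff A M).2 ?_
  have : Nontrivial (Submodule A M) := (Submodule.nontrivial_iff A).2 hnt
  refine ⟨fun N => ?_⟩
  let N' : Submodule B M :=
    { carrier := N
      add_mem' := fun ha hb => N.add_mem ha hb
      zero_mem' := N.zero_mem
      smul_mem' := by
        intro b x hx
        obtain ⟨a, ha⟩ := h b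
        have : b • x = (b - algebraMap A B a) • x + a • x := by
          rw [sub_smul, algebraMap_smul, sub_add_cancel]
        rw [this, kill _ ha, zero_add]
        exact N.smul_mem a hx }
  rcases eq_bot_or_eq_top N' with h' | h'
  · left
    rw [eq_bot_iff]
    intro x hx
    have : x ∈ N' := hx
    rw [h'] at this
    simpa using this
  · right
    rw [eq_top_iff]
    intro x _
    have : x ∈ N' := by rw [h']; trivial
    exact this

theorem length_restrict_aux {A : Type u} {B : Type v} [CommRing A] [CommRing B]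
    [IsLocalRing B] [Algebra A B]
    (h : ∀ b : B, ∃ a : A, b - algebraMap A B a ∈ maximalIdeal B)
    (M : Type w) [AddCommGroup M] [Module B M] (hM : IsFiniteLength B M) :
    ∀ [Module A M] [IsScalarTower A B M], Module.length A M = Module.length B M := by
  induction hM with
  | of_subsingleton =>
    intro _ _
    rw [Module.length_eq_zero, Module.length_eq_zero]
  | @of_simple_quotient M _ _ N _ hN ih =>
    intro _ _
    have h1 : Module.length B M = Module.length B N + Module.length B (M ⧸ N) :=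
      Module.length_eq_add_of_exact N.subtype N.mkQ N.injective_subtype N.mkQ_surjective
        (LinearMap.exact_subtype_mkQ N)
    have h2 : Module.length A M = Module.length A N + Module.length A (M ⧸ N) :=
      Module.length_eq_add_of_exact (N.subtype.restrictScalars A) (N.mkQ.restrictScalars A)
        N.injective_subtype N.mkQ_surjective (LinearMap.exact_subtype_mkQ N)
    have h3 : IsSimpleModule A (M ⧸ N) := simple_restrict h
    rw [h1, h2, ih, Module.length_eq_one A (M ⧸ N), Module.length_eq_one B (M ⧸ N)]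

theorem length_restrict {A : Type u} {B : Type v} [CommRing A] [CommRing B]
    [IsLocalRing B] [Algebra A B]
    (h : ∀ b : B, ∃ a : A, b - algebraMap A B a ∈ maximalIdeal B)
    (M : Type w) [AddCommGroup M] [Module B M] [Module A M] [IsScalarTower A B M] :
    Module.length A M = Module.length B M := by
  by_cases hM : IsFiniteLength B M
  · exact length_restrict_aux h M hM
  · have h1 : Module.length B M = ⊤ := by
      by_contra hne
      exact hM (Module.length_ne_top_iff.1 hne)
    have h2 := Submodule.length_le_length_restrictScalars (R := B) (M := M) A ⊤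
    rw [Submodule.restrictScalars_top, Module.length_top, Module.length_top, h1, top_le_iff] at h2
    rw [h1, h2]

/-- length of a finite free base change -/
theorem length_quot_map {A : Type u} {B : Type v} [CommRing A] [CommRing B]
    [IsLocalRing B] (φ : A →+* B) {m : ℕ} (b : Fin m → B)
    (h : ∀ c : B, ∃ a : A, c - φ a ∈ maximalIdeal B)
    (hb : Function.Bijective (fun f : Fin m → A => ∑ j, φ (f j) * b j)) (I : Ideal A) :
    Module.length B (B ⧸ I.map φ) = m * Module.length A (A ⧸ I) := by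
  let _ : Algebra A B := φ.toAlgebra
  have halg : ∀ a : A, algebraMap A B a = φ a := fun _ => rfl
  have hsm : ∀ (a : A) (c : B), a • c = φ a * c := fun _ _ => rfl
  let e0 : (Fin m → A) →ₗ[A] B :=
    { toFun := fun f => ∑ j, φ (f j) * b j
      map_add' := by
        intro f g
        simp [add_mul, Finset.sum_add_distrib]
      map_smul' := by
        intro a f
        simp [hsm, Finset.mul_sum, mul_assoc] }
  let e : (Fin m → A) ≃ₗ[A] B := LinearEquiv.ofBijective e0 hb
  have he : ∀ f, e f = ∑ j, φ (f j) * b j := fun _ => rfl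
  let P : Submodule A (Fin m → A) := Submodule.pi Set.univ (fun _ => I)
  let Q : Submodule A B := (I.map φ).restrictScalars A
  have hPQ : P.map (e : (Fin m → A) →ₗ[A] B) = Q := by
    apply le_antisymm
    · rintro _ ⟨f, hf, rfl⟩
      change e f ∈ I.map φ
      rw [he]
      refine Ideal.sum_mem _ fun j _ => Ideal.mul_mem_right _ _ (Ideal.mem_map_of_mem φ ?_)
      exact hf j (Set.mem_univ j)
    · intro x hx
      have hx' : x ∈ Ideal.span (φ '' I) := hx
      clear hx
      induction hx' using Submodule.span_induction with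
      | mem x hx =>
        obtain ⟨i, hi, rfl⟩ := hx
        obtain ⟨g, hg⟩ := e.surjective 1
        refine ⟨fun j => i * g j, fun j _ => Ideal.mul_mem_right _ _ hi, ?_⟩
        change e _ = _
        rw [he]
        rw [he] at hg
        calc ∑ j, φ (i * g j) * b j = φ i * ∑ j, φ (g j) * b j := by
              rw [Finset.mul_sum]; exact Finset.sum_congr rfl fun j _ => by rw [map_mul, mul_assoc]
          _ = φ i := by rw [hg, mul_one]
      | zero => exact Submodule.zero_mem _
      | add x y _ _ hx hy => exact Submodule.add_mem _ hx hy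
      | smul c x _ hx =>
        obtain ⟨f, hf, rfl⟩ := hx
        change c • e f ∈ _
        rw [he, Finset.smul_sum]
        refine Submodule.sum_mem _ fun j _ => ?_
        obtain ⟨g, hg⟩ := e.surjective (c * b j)
        refine ⟨fun k => f j * g k, fun k _ => Ideal.mul_mem_right _ _ (hf j (Set.mem_univ j)), ?_⟩
        change e _ = _
        rw [he]
        rw [he] at hg
        calc ∑ k, φ (f j * g k) * b k = φ (f j) * ∑ k, φ (g k) * b k := by
              rw [Finset.mul_sum]; exact Finset.sum_congr rfl fun j _ => by rw [map_mul, mul_assoc]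
          _ = c • (φ (f j) * b j) := by rw [hg, smul_eq_mul]; ring
  have h1 : Module.length A (B ⧸ I.map φ) = Module.length B (B ⧸ I.map φ) :=
    length_restrict h _
  have h2 : Module.length A (B ⧸ Q) = Module.length A (B ⧸ I.map φ) := by
    exact (Submodule.Quotient.restrictScalarsEquiv A (I.map φ)).length_eq
  have h3 : Module.length A ((Fin m → A) ⧸ P) = Module.length A (B ⧸ Q) :=
    (Submodule.Quotient.equiv P Q e hPQ).length_eq
  have h4 : Module.length A ((Fin m → A) ⧸ P) = Module.length A (Fin m → (A ⧸ I)) :=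
    (Submodule.quotientPi (fun _ : Fin m => (I : Submodule A A))).length_eq
  rw [← h1, ← h2, ← h3, h4, Module.length_pi_of_fintype]
  simp

section PS

open PowerSeries

variable {R : Type u} [CommRing R]

theorem coeff_sum_expand {m : ℕ} (hm : m ≠ 0) (f : Fin m → R⟦X⟧) (n : ℕ) :
    coeff n (∑ j, (expand m hm (f j)) * (X : R⟦X⟧) ^ (j : ℕ)) =
      coeff (n / m) (f ⟨n % m, Nat.mod_lt _ (Nat.pos_of_ne_zero hm)⟩) := by
  rw [map_sum, Finset.sum_eq_single (⟨n % m, Nat.mod_lt _ (Nat.pos_of_ne_zero hm)⟩ : Fin m)]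
  · rw [coeff_mul_X_pow', if_pos (Nat.mod_le n m), coeff_expand]
    have h1 : n - n % m = m * (n / m) := by
      have := Nat.div_add_mod n m
      omega
    rw [if_pos (by rw [h1]; exact dvd_mul_right _ _), h1,
      Nat.mul_div_cancel_left _ (Nat.pos_of_ne_zero hm)]
  · intro j _ hj
    rw [coeff_mul_X_pow']
    split_ifs with h1
    · rw [coeff_expand, if_neg]
      intro h2
      apply hj
      apply Fin.ext
      change (j : ℕ) = n % m
      obtain ⟨q, hq⟩ := h2
      have h3 : n = j + m * q := by omega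
      rw [h3, Nat.add_mul_mod_self_left, Nat.mod_eq_of_lt j.2]
    · rfl
  · intro h; exact absurd (Finset.mem_univ _) h

theorem expand_bijective {m : ℕ} (hm : m ≠ 0) :
    Function.Bijective (fun f : Fin m → R⟦X⟧ =>
      ∑ j, ((expand m hm : R⟦X⟧ →ₐ[R] R⟦X⟧) : R⟦X⟧ →+* R⟦X⟧) (f j) * (X : R⟦X⟧) ^ (j : ℕ)) := by
  have hpos := Nat.pos_of_ne_zero hm
  constructor
  · intro f g hfg
    funext j
    ext k
    have h1 := congrArg (coeff (m * k + j)) hfg
    simp only [RingHom.coe_coe] at h1
    rw [coeff_sum_expand, coeff_sum_expand] at h1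
    have h2 : (m * k + (j : ℕ)) / m = k := by
      rw [Nat.mul_add_div hpos, Nat.div_eq_of_lt j.2, add_zero]
    have h3 : (m * k + (j : ℕ)) % m = j := by
      rw [Nat.mul_add_mod, Nat.mod_eq_of_lt j.2]
    have h4 : (⟨(m * k + (j : ℕ)) % m, Nat.mod_lt _ hpos⟩ : Fin m) = j := Fin.ext h3
    rw [h2] at h1
    rw [h4] at h1
    exact h1
  · intro g
    refine ⟨fun j => PowerSeries.mk fun k => coeff (m * k + j) g, ?_⟩
    ext n
    simp only [RingHom.coe_coe]
    rw [coeff_sum_expand, coeff_mk]
    congr 1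
    exact congrArg (fun z => coeff z) (Nat.div_add_mod n m)

theorem expand_residue [IsLocalRing R] {m : ℕ} (hm : m ≠ 0) (c : R⟦X⟧) :
    ∃ a : R⟦X⟧, c - ((expand m hm : R⟦X⟧ →ₐ[R] R⟦X⟧) : R⟦X⟧ →+* R⟦X⟧) a
      ∈ maximalIdeal R⟦X⟧ := by
  refine ⟨C (constantCoeff c), ?_⟩
  rw [RingHom.coe_coe, expand_C, mem_maximalIdeal, mem_nonunits_iff, PowerSeries.isUnit_iff_constantCoeff]
  simp

end PS

section general

variable {S : Type u} [CommRing S]

theorem colen_anti {I J : Ideal S} (h : I ≤ J) : colen J ≤ colen I := by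
  unfold colen
  have : Module.length S (S ⧸ J) ≤ Module.length S (S ⧸ I) :=
    Module.length_le_of_surjective (Submodule.factor h) (Submodule.factor_surjective h)
  exact_mod_cast this

theorem colen_inf_le (I J : Ideal S) : colen (I ⊓ J) ≤ colen I + colen J := by
  unfold colen
  have h1 : Module.length S (S ⧸ (I ⊓ J)) ≤ Module.length S ((S ⧸ I) × (S ⧸ J)) := by
    refine Module.length_le_of_injective
      ((I ⊓ J).liftQ ((I.mkQ).prod J.mkQ) ?_) ?_
    · intro x hx
      rw [LinearMap.mem_ker]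
      exact Prod.ext ((Submodule.Quotient.mk_eq_zero _).2 hx.1) ((Submodule.Quotient.mk_eq_zero _).2 hx.2)
    · rw [← LinearMap.ker_eq_bot]
      apply Submodule.ker_liftQ_eq_bot
      intro x hx
      rw [LinearMap.mem_ker] at hx
      exact ⟨(Submodule.Quotient.mk_eq_zero _).1 (congrArg Prod.fst hx),
        (Submodule.Quotient.mk_eq_zero _).1 (congrArg Prod.snd hx)⟩
  rw [Module.length_prod] at h1
  exact_mod_cast h1

theorem mult_anti {I J : Ideal S} (h : I ≤ J) : mult J ≤ mult I := by
  unfold mult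
  refine limsup_le_limsup (Eventually.of_forall fun k => ?_)
  exact ENNReal.div_le_div_right (mul_le_mul_right (colen_anti (Ideal.pow_right_mono h k)) _) _

theorem colen_pow_maximal_ne_top [IsNoetherianRing S] [IsLocalRing S] (N : ℕ) :
    colen (maximalIdeal S ^ N) ≠ ⊤ := by
  rcases Nat.eq_zero_or_pos N with hN | hN
  · subst hN
    unfold colen
    rw [pow_zero, Ideal.one_eq_top]
    have : Subsingleton (S ⧸ (⊤ : Ideal S)) := Ideal.Quotient.subsingleton_iff.2 rfl
    rw [Module.length_eq_zero]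
    simp
  · have hne : maximalIdeal S ^ N ≠ ⊤ := by
      intro h
      have := Ideal.pow_le_self (I := maximalIdeal S) hN.ne'
      rw [h, top_le_iff] at this
      exact (maximalIdeal.isMaximal S).ne_top this
    have hnt : Nontrivial (S ⧸ maximalIdeal S ^ N) := Ideal.Quotient.nontrivial_iff.2 hne
    have hl : IsLocalRing (S ⧸ maximalIdeal S ^ N) :=
      IsLocalRing.of_surjective' (Ideal.Quotient.mk _) Ideal.Quotient.mk_surjective
    have hart : IsArtinianRing (S ⧸ maximalIdeal S ^ N) := by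
      rw [isArtinianRing_iff_isNilpotent_maximalIdeal]
      refine ⟨N, ?_⟩
      have h1 : maximalIdeal (S ⧸ maximalIdeal S ^ N) =
          (maximalIdeal S).map (Ideal.Quotient.mk (maximalIdeal S ^ N)) := by
        symm
        apply IsLocalRing.eq_maximalIdeal
        refine Ideal.IsMaximal.map_of_surjective_of_ker_le Ideal.Quotient.mk_surjective ?_
        rw [Ideal.mk_ker]
        exact Ideal.pow_le_self hN.ne'
      rw [h1, ← Ideal.map_pow, Ideal.map_quotient_self, Ideal.zero_eq_bot]
    have h2 : Module.length (S ⧸ maximalIdeal S ^ N) (S ⧸ maximalIdeal S ^ N) ≠ ⊤ :=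
      Module.length_ne_top
    have h3 : Module.length S (S ⧸ maximalIdeal S ^ N) =
      Module.length (S ⧸ maximalIdeal S ^ N) (S ⧸ maximalIdeal S ^ N) :=
      Module.length_eq_of_surjective Ideal.Quotient.mk_surjective
    unfold colen
    rw [h3]
    simpa using h2

end general

section final

open PowerSeries

variable {R : Type u} [CommRing R] [IsLocalRing R]

/-- the ring homomorphism `T ↦ T^m` -/
noncomputable def ex (R : Type u) [CommRing R] {m : ℕ} (hm : m ≠ 0) : R⟦X⟧ →+* R⟦X⟧ :=
  ((expand m hm : R⟦X⟧ →ₐ[R] R⟦X⟧) : R⟦X⟧ →+* R⟦X⟧)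

theorem colen_ex {m : ℕ} (hm : m ≠ 0) (I : Ideal R⟦X⟧) :
    colen (I.map (ex R hm)) = m * colen I := by
  unfold colen
  have := length_quot_map (ex R hm) (fun j : Fin m => (X : R⟦X⟧) ^ (j : ℕ))
    (expand_residue hm) (expand_bijective hm) I
  rw [this]
  push_cast
  rfl

theorem mult_ex {m : ℕ} (hm : m ≠ 0) (I : Ideal R⟦X⟧) :
    mult (I.map (ex R hm)) = m * mult I := by
  unfold mult
  rw [← ENNReal.limsup_const_mul_of_ne_top (ENNReal.natCast_ne_top m)]
  congr 1
  funext k
  rw [← Ideal.map_pow, colen_ex, ← mul_div_assoc]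
  congr 1
  ring

theorem radical_ex {m : ℕ} (hm : m ≠ 0) {I : Ideal R⟦X⟧} (hI : I.radical = maximalIdeal R⟦X⟧) :
    (I.map (ex R hm)).radical = maximalIdeal R⟦X⟧ := by
  apply le_antisymm
  · have h1 : I.map (ex R hm) ≤ maximalIdeal R⟦X⟧ := by
      rw [Ideal.map_le_iff_le_comap]
      intro f hf
      have hf' : f ∈ maximalIdeal R⟦X⟧ := hI ▸ Ideal.le_radical hf
      rw [Ideal.mem_comap, mem_maximalIdeal, mem_nonunits_iff, isUnit_iff_constantCoeff]
      rw [mem_maximalIdeal, mem_nonunits_iff, isUnit_iff_constantCoeff] at hf'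
      have : constantCoeff (ex R hm f) = constantCoeff f := constantCoeff_expand m hm f
      rwa [this]
    have h2 := Ideal.radical_mono h1
    rwa [(maximalIdeal.isMaximal R⟦X⟧).isPrime.radical] at h2
  · have h1 : (maximalIdeal R⟦X⟧).map (ex R hm) ≤ (I.map (ex R hm)).radical := by
      rw [← hI]
      exact Ideal.map_radical_le (ex R hm)
    intro f hf
    have hX : (X : R⟦X⟧) ∈ (I.map (ex R hm)).radical := by
      have hXm : (X : R⟦X⟧) ∈ maximalIdeal R⟦X⟧ := by
        rw [mem_maximalIdeal, mem_nonunits_iff, isUnit_iff_constantCoeff]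
        simp
      have h2 := h1 (Ideal.mem_map_of_mem (ex R hm) hXm)
      have h3 : ex R hm X = (X : R⟦X⟧) ^ m := expand_X m hm
      rw [h3] at h2
      have h4 := Ideal.radical_idem (I.map (ex R hm))
      rw [← h4]
      exact ⟨m, h2⟩
    have hC : (C (constantCoeff f) : R⟦X⟧) ∈ (I.map (ex R hm)).radical := by
      have hCm : (C (constantCoeff f) : R⟦X⟧) ∈ maximalIdeal R⟦X⟧ := by
        rw [mem_maximalIdeal, mem_nonunits_iff, isUnit_iff_constantCoeff] at hf ⊢
        simpa using hf
      have h2 := h1 (Ideal.mem_map_of_mem (ex R hm) hCm)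
      have h3 : ex R hm (C (constantCoeff f)) = (C (constantCoeff f) : R⟦X⟧) := expand_C m hm _
      rwa [h3] at h2
    have hd : (X : R⟦X⟧) ∣ f - C (constantCoeff f) := by
      rw [X_dvd_iff]; simp
    obtain ⟨g, hg⟩ := hd
    have : f = X * g + C (constantCoeff f) := by rw [← hg]; ring
    rw [this]
    exact Ideal.add_mem _ (Ideal.mul_mem_right _ _ hX) hC

theorem dimN_powerSeries [IsNoetherianRing R] : dimN R⟦X⟧ = dimN R + 1 := by
  have hX : (X : R⟦X⟧) ∈ nonZeroDivisors R⟦X⟧ := MvPowerSeries.X_mem_nonzeroDivisors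
  have hXm : (X : R⟦X⟧) ∈ maximalIdeal R⟦X⟧ := by
    rw [mem_maximalIdeal, mem_nonunits_iff, isUnit_iff_constantCoeff]
    simp
  have h1 := ringKrullDim_quotient_span_singleton_succ_eq_ringKrullDim_of_mem_nonZeroDivisors hX hXm
  have hker : RingHom.ker (constantCoeff (R := R)) = Ideal.span {(X : R⟦X⟧)} := by
    ext f
    rw [RingHom.mem_ker, Ideal.mem_span_singleton, X_dvd_iff]
  have e : (R⟦X⟧ ⧸ Ideal.span {(X : R⟦X⟧)}) ≃+* R :=
    (Ideal.quotEquivOfEq hker.symm).trans
      (RingHom.quotientKerEquivOfSurjective (f := constantCoeff (R := R)) (fun r => ⟨C r, constantCoeff_C r⟩))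
  rw [ringKrullDim_eq_of_ringEquiv e] at h1
  have hfin : FiniteRingKrullDim R := inferInstance
  rw [finiteRingKrullDim_iff_ne_bot_and_top] at hfin
  obtain ⟨hb, ht⟩ := hfin
  unfold dimN
  rw [← h1]
  obtain ⟨n, hn⟩ : ∃ n : ℕ, ringKrullDim R = n := by
    cases h : ringKrullDim R with
    | bot => exact absurd h hb
    | coe a =>
      cases a with
      | top => exact absurd h ht
      | coe n => exact ⟨n, rfl⟩
  rw [hn]
  have : ((n : WithBot ℕ∞) + 1) = ((n + 1 : ℕ) : WithBot ℕ∞) := by push_cast; rfl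
  rw [this]
  rfl

end final

section main

variable {R : Type u} [CommRing R] [IsLocalRing R] [IsNoetherianRing R]

theorem key (N : ℕ) (I : Ideal R⟦X⟧) (hI : I.radical = maximalIdeal R⟦X⟧) (m : ℕ) (hm : m ≠ 0) :
    (m * mult I) / ((dimN R + 1).factorial *
      (m * colen I + colen (maximalIdeal R⟦X⟧ ^ N))) ≤ deepLM R N := by
  set J : Ideal R⟦X⟧ := I.map (ex R hm) with hJ
  have hrad : (J ⊓ maximalIdeal R⟦X⟧ ^ N).radical = maximalIdeal R⟦X⟧ := by
    rw [Ideal.radical_inf, hJ, radical_ex hm hI]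
    apply inf_eq_left.2
    rcases Nat.eq_zero_or_pos N with hN | hN
    · subst hN
      rw [pow_zero, Ideal.one_eq_top, Ideal.radical_top]
      exact le_top
    · rw [Ideal.radical_pow _ hN.ne', (maximalIdeal.isMaximal R⟦X⟧).isPrime.radical]
  have h1 : mult (J ⊓ maximalIdeal R⟦X⟧ ^ N) /
      ((dimN R + 1).factorial * colen (J ⊓ maximalIdeal R⟦X⟧ ^ N)) ≤ deepLM R N := by
    unfold deepLM
    refine le_iSup_of_le (J ⊓ maximalIdeal R⟦X⟧ ^ N) ?_
    refine le_iSup_of_le hrad ?_
    exact le_iSup_of_le inf_le_right le_rfl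
  refine le_trans ?_ h1
  have h2 : m * mult I ≤ mult (J ⊓ maximalIdeal R⟦X⟧ ^ N) := by
    rw [← mult_ex hm]
    exact mult_anti inf_le_left
  have h3 : colen (J ⊓ maximalIdeal R⟦X⟧ ^ N) ≤ m * colen I + colen (maximalIdeal R⟦X⟧ ^ N) := by
    rw [← colen_ex hm]
    exact colen_inf_le _ _
  exact ENNReal.div_le_div h2 (mul_le_mul_right h3 _)

theorem ratio_le (N : ℕ) (I : Ideal R⟦X⟧) (hI : I.radical = maximalIdeal R⟦X⟧) :
    mult I / ((dimN R + 1).factorial * colen I) ≤ deepLM R N := by
  by_cases hL : deepLM R N = ⊤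
  · rw [hL]; exact le_top
  set D : ℝ≥0∞ := ((dimN R + 1).factorial : ℝ≥0∞) with hD
  have hD0 : D ≠ 0 := by
    rw [hD]; exact_mod_cast (Nat.factorial_ne_zero _)
  have hDt : D ≠ ⊤ := ENNReal.natCast_ne_top _
  by_cases hc : colen I = ⊤
  · rw [hc, ENNReal.mul_top hD0, ENNReal.div_top]
    exact zero_le
  set c : ℝ≥0∞ := colen (maximalIdeal R⟦X⟧ ^ N) with hcdef
  have hct : c ≠ ⊤ := colen_pow_maximal_ne_top N
  have hI0 : colen I ≠ 0 := by
    intro h0
    unfold colen at h0
    have h0' : Module.length R⟦X⟧ (R⟦X⟧ ⧸ I) = 0 := by exact_mod_cast h0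
    rw [Module.length_eq_zero_iff] at h0'
    have hI' : I = ⊤ := Ideal.Quotient.subsingleton_iff.1 h0'
    rw [hI', Ideal.radical_top] at hI
    exact (maximalIdeal.isMaximal R⟦X⟧).ne_top hI.symm
  have h1 : ∀ n : ℕ, mult I ≤ deepLM R N * D * (colen I + c / ((n : ℝ≥0∞) + 1)) := by
    intro n
    have hk := key N I hI (n + 1) (Nat.succ_ne_zero n)
    have hm0 : (((n + 1 : ℕ) : ℝ≥0∞)) ≠ 0 := by exact_mod_cast (Nat.succ_ne_zero n)
    have hmt : (((n + 1 : ℕ) : ℝ≥0∞)) ≠ ⊤ := ENNReal.natCast_ne_top _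
    rw [← hD, ← hcdef] at hk
    have hden0 : D * (((n + 1 : ℕ) : ℝ≥0∞) * colen I + c) ≠ 0 := by
      refine mul_ne_zero hD0 ?_
      intro h
      rw [add_eq_zero, mul_eq_zero] at h
      rcases h.1 with h' | h'
      · exact hm0 h'
      · exact hI0 h'
    have hdent : D * (((n + 1 : ℕ) : ℝ≥0∞) * colen I + c) ≠ ⊤ :=
      ENNReal.mul_ne_top hDt (ENNReal.add_ne_top.2 ⟨ENNReal.mul_ne_top hmt hc, hct⟩)
    rw [ENNReal.div_le_iff hden0 hdent] at hk
    have h2 : ((n + 1 : ℕ) : ℝ≥0∞) * mult I ≤
        ((n + 1 : ℕ) : ℝ≥0∞) * (deepLM R N * D * (colen I + c / ((n + 1 : ℕ) : ℝ≥0∞))) := by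
      refine hk.trans (le_of_eq ?_)
      have h3 : ((n + 1 : ℕ) : ℝ≥0∞) * (c / ((n + 1 : ℕ) : ℝ≥0∞)) = c := ENNReal.mul_div_cancel hm0 hmt
      calc deepLM R N * (D * (((n + 1 : ℕ) : ℝ≥0∞) * colen I + c))
          = deepLM R N * D * (((n + 1 : ℕ) : ℝ≥0∞) * colen I
            + ((n + 1 : ℕ) : ℝ≥0∞) * (c / ((n + 1 : ℕ) : ℝ≥0∞))) := by rw [h3]; ring
        _ = _ := by ring
    have h4 := (ENNReal.mul_le_mul_iff_right hm0 hmt).1 h2
    simpa using h4
  have h2 : Tendsto (fun n : ℕ => deepLM R N * D * (colen I + c / ((n : ℝ≥0∞) + 1))) atTop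
      (𝓝 (deepLM R N * D * (colen I + 0))) := by
    refine ENNReal.Tendsto.const_mul ?_ (Or.inr (ENNReal.mul_ne_top hL hDt))
    refine tendsto_const_nhds.add ?_
    have h3 : Tendsto (fun n : ℕ => ((n : ℝ≥0∞) + 1)) atTop (𝓝 ⊤) := by
      have := (tendsto_add_atTop_iff_nat 1).2 ENNReal.tendsto_nat_nhds_top
      simpa using this
    have h4 := ENNReal.Tendsto.div (tendsto_const_nhds (x := c) (f := (atTop : Filter ℕ))) (Or.inr ENNReal.top_ne_zero) h3 (Or.inr hct)
    simpa using h4
  have h3 : mult I ≤ deepLM R N * D * (colen I + 0) := ge_of_tendsto' h2 h1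
  rw [add_zero, mul_assoc] at h3
  exact ENNReal.div_le_of_le_mul h3

theorem LM_powerSeries_eq :
    LM R⟦X⟧ = ⨆ (I : Ideal R⟦X⟧) (_ : I.radical = maximalIdeal R⟦X⟧),
    mult I / ((dimN R + 1).factorial * colen I) := by
  unfold LM
  rw [dimN_powerSeries]

theorem deepLM_eq (N : ℕ) : deepLM R N = LM R⟦X⟧ := by
  apply le_antisymm
  · rw [LM_powerSeries_eq]
    unfold deepLM
    refine iSup_mono fun I => iSup_mono fun hI => iSup_le fun _ => le_rfl
  · rw [LM_powerSeries_eq]
    exact iSup_le fun I => iSup_le fun hI => ratio_le N I hI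

end main

end Pool.Agent.Lib_helper7.LechMumford
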